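import Pool.Agent.Lib.helper18.Ptak3

namespace Pool.Agent.Results.MP_cf143d_an.Power
open Metric Polynomial H18Ptak

/-- operators on the `n`-dimensional complex Hilbert space -/
abbrev Op (n : ℕ) := EuclideanSpace ℂ (Fin n) →L[ℂ] EuclideanSpace ℂ (Fin n)

/-- contractions annihilated by `p` -/
def Ann (n : ℕ) (p : ℂ[X]) : Set (Op n) := {T | ‖T‖ ≤ 1 ∧ aeval T p = 0}

/-- contractions with spectrum in the closed disc of radius `r` -/
def Adm (n : ℕ) (r : ℝ) : Set (Op n) := {T | ‖T‖ ≤ 1 ∧ ∀ z ∈ spectrum ℂ T, ‖z‖ ≤ r}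

/-- the operator norm of the `m`-th power -/
noncomputable def powNorm {n : ℕ} (T : Op n) (m : ℕ) : ℝ := ‖T ^ m‖

theorem result (n : ℕ) (hn : 1 ≤ n) (r : ℝ) (hr0 : 0 < r) (hr : r < 1) (m : ℕ) :
    ∃ T₀ ∈ Ann n ((X - C (r : ℂ)) ^ n), ∀ T ∈ Adm n r, powNorm T m ≤ powNorm T₀ m := by
  unfold powNorm
  obtain ⟨k, rfl⟩ : ∃ k, n = k + 1 := ⟨n - 1, by omega⟩
  obtain ⟨a, ha, ha2⟩ := lemD hr0 hr k (X ^ m)
  have ha0 : a ≠ 0 := by rintro rfl; simp at ha; linarith
  have hu : ‖(r : ℂ) / a‖ = 1 := by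
    rw [norm_div, ha, Complex.norm_real, Real.norm_of_nonneg hr0.le, div_self hr0.ne']
  refine ⟨((r : ℂ) / a) • Tm k a, ⟨?_, ?_⟩, fun T ⟨hT, hT2⟩ => ?_⟩
  · rw [norm_smul, hu, one_mul]; exact Tm_le k (ha.trans_lt hr)
  · have h1 : ((r : ℂ) / a) • Tm k a - (r : ℂ) • 1 = ((r : ℂ) / a) • (Tm k a - a • 1) := by
      rw [smul_sub, smul_smul, div_mul_cancel₀ _ ha0]
    simp only [map_pow, map_sub, aeval_X, aeval_C, Algebra.algebraMap_eq_smul_one]
    rw [h1, _root_.smul_pow, Tm_nil]; ext u i; simp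
  · rw [_root_.smul_pow, norm_smul, norm_pow ((r : ℂ) / a), hu, one_pow, one_mul]
    have := lemC hr0 hr k (X ^ m) ha2 (T : E (k + 1) →ₗ[ℂ] E (k + 1)).charpoly (by
      rw [degree_eq_natDegree (LinearMap.charpoly_monic _).ne_zero, LinearMap.charpoly_natDegree]
      simp) (by
      intro z hz
      apply hT2
      rw [ContinuousLinearMap.spectrum_eq, ← Module.End.hasEigenvalue_iff_mem_spectrum]
      exact (Module.End.hasEigenvalue_iff_isRoot_charpoly _ _).2 hz) T hT (by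
      apply ContinuousLinearMap.coe_injective
      have h2 := LinearMap.aeval_self_charpoly (T : E (k + 1) →ₗ[ℂ] E (k + 1))
      have h3 := aeval_algHom_apply (Module.End.toContinuousLinearMap (𝕜 := ℂ) (E (k + 1))).symm T
        (T : E (k + 1) →ₗ[ℂ] E (k + 1)).charpoly
      exact h3.symm.trans h2)
    simpa using this

end Pool.Agent.Results.MP_cf143d_an.Power
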